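import Mathlib

set_option autoImplicit false

namespace SF

/-- positive solutions of `X^2 + D Y^2 = M` -/
def Sol (D M : ℕ) : Finset (ℕ × ℕ) :=
  ((Finset.range (M + 1)) ×ˢ (Finset.range (M + 1))).filter
    (fun p => 0 < p.1 ∧ 0 < p.2 ∧ p.1 ^ 2 + D * p.2 ^ 2 = M)

/-- primitive positive solutions of `X^2 + D Y^2 = M` -/
def Prim (D M : ℕ) : Finset (ℕ × ℕ) :=
  (Sol D M).filter (fun p => Nat.Coprime p.1 p.2)

/-- powerful numbers (every prime factor appears squared) -/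
def Pw (a : ℕ) : Prop := ∀ p : ℕ, p.Prime → p ∣ a → p ^ 2 ∣ a

/-- `a` has a representation `b^3 x^2` with `b` squarefree and `b > K` -/
def Big (K a : ℕ) : Prop := ∃ b x : ℕ, Squarefree b ∧ K < b ∧ 0 < x ∧ a = b ^ 3 * x ^ 2

/-- `a` has a representation `b^3 x^2` with `b` squarefree and `b ≤ K` -/
def Small (K a : ℕ) : Prop := ∃ b x : ℕ, Squarefree b ∧ b ≤ K ∧ 0 < x ∧ a = b ^ 3 * x ^ 2

end SF
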