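import Pool.Agent.Helper353.SF.Defs

set_option autoImplicit false

namespace SF



theorem sum_tail_step (N : ℕ) (hN : 0 < N) :
    (1 : ℝ) / (((N + 1 : ℕ) : ℝ) * Real.sqrt ((N + 1 : ℕ) : ℝ)) ≤
      2 / Real.sqrt N - 2 / Real.sqrt ((N + 1 : ℕ) : ℝ) := by
  have hN' : (0 : ℝ) < N := by exact_mod_cast hN
  set s := Real.sqrt N with hs
  set t := Real.sqrt ((N + 1 : ℕ) : ℝ) with ht
  have hs0 : 0 < s := Real.sqrt_pos.mpr hN'
  have ht0 : 0 < t := Real.sqrt_pos.mpr (by positivity)
  have hs2 : s ^ 2 = N := Real.sq_sqrt hN'.le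
  have ht2 : t ^ 2 = (N : ℝ) + 1 := by
    rw [ht, Real.sq_sqrt (by positivity)]
    push_cast
    ring
  have h1 : ((N + 1 : ℕ) : ℝ) = t ^ 2 := by
    rw [ht2]
    push_cast
    ring
  have h3 : (t - s) * (t + s) = 1 := by
    have : (t - s) * (t + s) = t ^ 2 - s ^ 2 := by ring
    rw [this, ht2, hs2]
    ring
  have hst : s < t := by
    by_contra h
    push Not at h
    nlinarith
  have h4 : 2 / s - 2 / t = 2 / (s * t * (s + t)) := by
    have h5 : 2 / s - 2 / t = 2 * (t - s) / (s * t) := by field_simp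
    rw [h5, div_eq_div_iff (by positivity) (by positivity)]
    linear_combination (2 * s * t) * h3
  rw [h1, h4, div_le_div_iff₀ (by positivity) (by positivity)]
  nlinarith [mul_pos hs0 ht0, mul_pos (mul_pos hs0 ht0) ht0, mul_pos (sub_pos.mpr hst) ht0,
    mul_pos (mul_pos (sub_pos.mpr hst) ht0) ht0, mul_pos (mul_pos (sub_pos.mpr hst) hs0) ht0]

theorem sum_tail (K N : ℕ) (hK : 0 < K) :
    ∑ b ∈ Finset.Ioc K N, (1 : ℝ) / (b * Real.sqrt b) ≤ 2 / Real.sqrt K := by
  by_cases h : K ≤ N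
  · have key : ∑ b ∈ Finset.Ioc K N, (1 : ℝ) / (b * Real.sqrt b) ≤
        2 / Real.sqrt K - 2 / Real.sqrt N := by
      induction N, h using Nat.le_induction with
      | base => simp
      | succ N hKN ih =>
        rw [← Finset.insert_Ioc_right_eq_Ioc_add_one hKN, Finset.sum_insert (by simp)]
        have := sum_tail_step N (by omega)
        linarith
    have h2 : 0 ≤ 2 / Real.sqrt N := by positivity
    linarith
  · rw [Finset.Ioc_eq_empty (by omega), Finset.sum_empty]
    positivity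

end SF
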