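import Pool.Agent.Helper353.SF.Defs
import Pool.Agent.Helper353.SF.P_sum_tail

set_option autoImplicit false

namespace SF



theorem big_card (K n : ℕ) (hK : 0 < K) :
    (Set.ncard {a : ℕ | a ≤ n ∧ 0 < a ∧ Big K a} : ℝ) ≤ 2 * Real.sqrt n / Real.sqrt K := by
  classical
  set T : Finset ℕ := (Finset.Ioc K n).biUnion (fun b =>
    (Finset.Icc 1 ⌊Real.sqrt n / (b * Real.sqrt b)⌋₊).image (fun x => b ^ 3 * x ^ 2)) with hT
  have hsub : {a : ℕ | a ≤ n ∧ 0 < a ∧ Big K a} ⊆ (T : Set ℕ) := by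
    rintro a ⟨han, ha, b, x, _, hKb, hx, rfl⟩
    rw [Finset.mem_coe, hT, Finset.mem_biUnion]
    have hb : 0 < b := lt_trans hK hKb
    have hbn : b ≤ n := by
      have h1 : b ≤ b ^ 3 * x ^ 2 := by
        have h2 : b ≤ b ^ 3 := Nat.le_self_pow (by norm_num) b
        have h3 : 1 ≤ x ^ 2 := Nat.one_le_pow _ _ hx
        nlinarith
      exact h1.trans han
    refine ⟨b, Finset.mem_Ioc.mpr ⟨hKb, hbn⟩, ?_⟩
    rw [Finset.mem_image]
    refine ⟨x, Finset.mem_Icc.mpr ⟨hx, ?_⟩, rfl⟩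
    apply Nat.le_floor
    have hb' : (0 : ℝ) < b := by exact_mod_cast hb
    have hsb : 0 < Real.sqrt b := Real.sqrt_pos.mpr hb'
    rw [le_div_iff₀ (by positivity)]
    apply Real.le_sqrt_of_sq_le
    have h4 : ((x : ℝ) * (b * Real.sqrt b)) ^ 2 = (b : ℝ) ^ 3 * x ^ 2 := by
      have h5 : Real.sqrt b ^ 2 = b := Real.sq_sqrt hb'.le
      calc ((x : ℝ) * (b * Real.sqrt b)) ^ 2 = x ^ 2 * b ^ 2 * Real.sqrt b ^ 2 := by ring
        _ = (b : ℝ) ^ 3 * x ^ 2 := by rw [h5]; ring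
    rw [h4]
    exact_mod_cast han
  have h1 : Set.ncard {a : ℕ | a ≤ n ∧ 0 < a ∧ Big K a} ≤ T.card := by
    rw [← Set.ncard_coe_finset]
    exact Set.ncard_le_ncard hsub T.finite_toSet
  have h2 : (T.card : ℝ) ≤ ∑ b ∈ Finset.Ioc K n, Real.sqrt n * ((1 : ℝ) / (b * Real.sqrt b)) := by
    calc (T.card : ℝ) ≤ ((∑ b ∈ Finset.Ioc K n,
          ((Finset.Icc 1 ⌊Real.sqrt n / (b * Real.sqrt b)⌋₊).image (fun x => b ^ 3 * x ^ 2)).card : ℕ) : ℝ) := by
          exact_mod_cast Finset.card_biUnion_le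
      _ = ∑ b ∈ Finset.Ioc K n,
          (((Finset.Icc 1 ⌊Real.sqrt n / (b * Real.sqrt b)⌋₊).image (fun x => b ^ 3 * x ^ 2)).card : ℝ) := by
          push_cast; rfl
      _ ≤ _ := by
          apply Finset.sum_le_sum
          intro b _
          calc (((Finset.Icc 1 ⌊Real.sqrt n / (b * Real.sqrt b)⌋₊).image (fun x => b ^ 3 * x ^ 2)).card : ℝ)
              ≤ ((Finset.Icc 1 ⌊Real.sqrt n / (b * Real.sqrt b)⌋₊).card : ℝ) := by
                exact_mod_cast Finset.card_image_le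
            _ = (⌊Real.sqrt n / (b * Real.sqrt b)⌋₊ : ℝ) := by
                rw [Nat.card_Icc]; simp
            _ ≤ Real.sqrt n / (b * Real.sqrt b) := Nat.floor_le (by positivity)
            _ = Real.sqrt n * ((1 : ℝ) / (b * Real.sqrt b)) := by ring
  rw [← Finset.mul_sum] at h2
  have h3 := sum_tail K n hK
  have h4 : (Set.ncard {a : ℕ | a ≤ n ∧ 0 < a ∧ Big K a} : ℝ) ≤ T.card := by exact_mod_cast h1
  calc (Set.ncard {a : ℕ | a ≤ n ∧ 0 < a ∧ Big K a} : ℝ) ≤ T.card := h4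
    _ ≤ _ := h2
    _ ≤ Real.sqrt n * (2 / Real.sqrt K) := mul_le_mul_of_nonneg_left h3 (Real.sqrt_nonneg _)
    _ = 2 * Real.sqrt n / Real.sqrt K := by ring

end SF
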