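import Pool.Agent.Helper353.SF.Defs

set_option autoImplicit false

namespace SF



theorem cop_M (D M X Y : ℕ) (h : X ^ 2 + D * Y ^ 2 = M) (hc : Nat.Coprime X Y) :
    Nat.Coprime Y M := by
  subst h
  have h1 : Nat.Coprime Y (X ^ 2) := hc.symm.pow_right 2
  have h2 : X ^ 2 + D * Y ^ 2 = X ^ 2 + (D * Y) * Y := by ring
  rw [h2, Nat.coprime_add_mul_right_right]
  exact h1

end SF
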