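import Pool.Agent.Helper353.SF.Defs

set_option autoImplicit false

namespace SF



theorem div_S (D M : ℕ) (X Y X₀ Y₀ : ℤ) (hM : 0 < M)
    (e : X ^ 2 + D * Y ^ 2 = M) (e₀ : X₀ ^ 2 + D * Y₀ ^ 2 = M) :
    ((M / Int.gcd (X * Y₀ - X₀ * Y) M : ℕ) : ℤ) ∣ X * Y₀ + X₀ * Y := by
  have hT : (X * Y₀ - X₀ * Y) * (X * Y₀ + X₀ * Y) = M * (Y₀ ^ 2 - Y ^ 2) := by
    linear_combination (Y₀ ^ 2) * e - (Y ^ 2) * e₀
  obtain ⟨T, hTT⟩ : ∃ T, T = X * Y₀ - X₀ * Y := ⟨_, rfl⟩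
  obtain ⟨S, hSS⟩ : ∃ S, S = X * Y₀ + X₀ * Y := ⟨_, rfl⟩
  rw [← hTT, ← hSS] at hT
  rw [← hTT, ← hSS]
  obtain ⟨g, hg⟩ : ∃ g, g = Int.gcd T M := ⟨_, rfl⟩
  have hg0 : 0 < Int.gcd T M := by
    apply Int.gcd_pos_of_ne_zero_right
    exact_mod_cast hM.ne'
  obtain ⟨T', M', hco, hT', hM'⟩ := Int.exists_gcd_one hg0
  rw [← hg] at hg0 hT' hM' ⊢
  have hgZ : (g : ℤ) ≠ 0 := by exact_mod_cast hg0.ne'
  have hq : ((M / g : ℕ) : ℤ) = M' := by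
    rw [Int.natCast_div, hM']
    exact Int.mul_ediv_cancel _ hgZ
  rw [hq]
  have h1 : T' * S = M' * (Y₀ ^ 2 - Y ^ 2) := by
    apply mul_left_cancel₀ hgZ
    rw [hT', hM'] at hT
    linear_combination hT
  have h2 : M' ∣ T' * S := ⟨_, h1⟩
  have h3 : IsCoprime M' T' := (Int.isCoprime_iff_gcd_eq_one.2 hco).symm
  exact h3.dvd_of_dvd_mul_left h2

end SF
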