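import Pool.Agent.Helper353.SF.Defs

set_option autoImplicit false

namespace SF



theorem div_cross (g : ℤ) (X Y X' Y' X₀ Y₀ : ℤ) (c : IsCoprime Y₀ g)
    (h1 : g ∣ X * Y₀ - X₀ * Y) (h2 : g ∣ X' * Y₀ - X₀ * Y') : g ∣ X * Y' - X' * Y := by
  have h : g ∣ Y₀ * (X * Y' - X' * Y) := by
    have e : Y₀ * (X * Y' - X' * Y) = Y' * (X * Y₀ - X₀ * Y) - Y * (X' * Y₀ - X₀ * Y') := by ring
    rw [e]
    exact dvd_sub (dvd_mul_of_dvd_right h1 _) (dvd_mul_of_dvd_right h2 _)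
  exact c.symm.dvd_of_dvd_mul_left h

end SF
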