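import Pool.Agent.Helper353.SF.Defs

set_option autoImplicit false

namespace SF



theorem pw_rep (a : ℕ) (ha : 0 < a) (h : Pw a) :
    ∃ b x : ℕ, Squarefree b ∧ 0 < x ∧ a = b ^ 3 * x ^ 2 := by
  obtain ⟨b, s, hb, hs, hsa, hsq⟩ := Nat.sq_mul_squarefree_of_pos ha
  have hdvd : b ∣ s := by
    rw [← Nat.prod_primeFactors_of_squarefree hsq]
    apply Finset.prod_primes_dvd
    · intro p hp
      exact (Nat.prime_of_mem_primeFactors hp).prime
    · intro p hp
      have hpp := Nat.prime_of_mem_primeFactors hp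
      have hpb := Nat.dvd_of_mem_primeFactors hp
      by_contra hps
      have h1 : p ∣ a := by
        rw [← hsa]
        exact hpb.mul_left _
      have h2 : p ^ 2 ∣ s ^ 2 * b := by
        rw [hsa]
        exact h p hpp h1
      have h3 : Nat.Coprime (p ^ 2) (s ^ 2) :=
        Nat.Coprime.pow _ _ ((Nat.Prime.coprime_iff_not_dvd hpp).2 hps)
      have h4 : p ^ 2 ∣ b := h3.dvd_of_dvd_mul_left h2
      have h5 : p * p ∣ b := by rwa [pow_two] at h4
      exact hpp.one_lt.ne' (Nat.isUnit_iff.1 (hsq p h5))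
  obtain ⟨x, hx⟩ := hdvd
  refine ⟨b, x, hsq, ?_, ?_⟩
  · rcases Nat.eq_zero_or_pos x with h0 | h0
    · subst h0
      simp at hx
      omega
    · exact h0
  · rw [← hsa, hx]
    ring

end SF
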