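import Pool.Agent.Helper353.SF.Defs

set_option autoImplicit false

namespace SF



theorem k_bound (D M : ℕ) (X Y X' Y' k : ℤ) (hD : 0 < D) (hM : 0 < M)
    (e : X ^ 2 + D * Y ^ 2 = M) (e' : X' ^ 2 + D * Y' ^ 2 = M)
    (hk : 2 * (X * Y' - X' * Y) = k * M) : -2 ≤ k ∧ k ≤ 2 := by
  have hDz : (1 : ℤ) ≤ D := by exact_mod_cast hD
  have hMz : (0 : ℤ) < M := by exact_mod_cast hM
  have h1 : (X * X' + D * (Y * Y')) ^ 2 + D * (X * Y' - X' * Y) ^ 2 = (M : ℤ) ^ 2 := by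
    have h2 : (X * X' + D * (Y * Y')) ^ 2 + D * (X * Y' - X' * Y) ^ 2 =
        (X ^ 2 + D * Y ^ 2) * (X' ^ 2 + D * Y' ^ 2) := by ring
    rw [h2, e, e']
    ring
  have h3 : (D : ℤ) * k ^ 2 * (M : ℤ) ^ 2 ≤ 4 * (M : ℤ) ^ 2 := by
    have h4 : (D : ℤ) * k ^ 2 * (M : ℤ) ^ 2 = 4 * (D * (X * Y' - X' * Y) ^ 2) := by
      calc (D : ℤ) * k ^ 2 * (M : ℤ) ^ 2 = D * (k * M) ^ 2 := by ring
        _ = D * (2 * (X * Y' - X' * Y)) ^ 2 := by rw [hk]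
        _ = _ := by ring
    rw [h4]
    have := sq_nonneg (X * X' + D * (Y * Y'))
    linarith
  have h5 : (D : ℤ) * k ^ 2 ≤ 4 := le_of_mul_le_mul_right h3 (by positivity)
  have h6 : k ^ 2 ≤ 4 := by
    have := mul_le_mul_of_nonneg_right hDz (sq_nonneg k)
    linarith
  constructor <;> nlinarith

end SF
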