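import Pool.Agent.Helper353.SF.Defs

set_option autoImplicit false

namespace SF



theorem k_inj (D M : ℕ) (X Y X' Y' X'' Y'' : ℤ) (hM : 0 < M)
    (p1 : 0 ≤ X) (p2 : 0 ≤ Y) (p3 : 0 ≤ X') (p4 : 0 ≤ Y') (p5 : 0 ≤ X'') (p6 : 0 ≤ Y'')
    (e : X ^ 2 + D * Y ^ 2 = M) (e' : X' ^ 2 + D * Y' ^ 2 = M) (e'' : X'' ^ 2 + D * Y'' ^ 2 = M)
    (h : X * Y' - X' * Y = X * Y'' - X'' * Y) : X' = X'' ∧ Y' = Y'' := by
  
  have hV' : 0 ≤ X * X' + D * (Y * Y') := by positivity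
  have hV'' : 0 ≤ X * X'' + D * (Y * Y'') := by positivity
  have hM' : (0 : ℤ) < M := by exact_mod_cast hM
  have s1 : (X * X' + D * (Y * Y')) ^ 2 = (M : ℤ) ^ 2 - D * (X * Y' - X' * Y) ^ 2 := by
    have : (M : ℤ) ^ 2 = (X ^ 2 + D * Y ^ 2) * (X' ^ 2 + D * Y' ^ 2) := by rw [e, e', sq]
    rw [this]; ring
  have s2 : (X * X'' + D * (Y * Y'')) ^ 2 = (M : ℤ) ^ 2 - D * (X * Y'' - X'' * Y) ^ 2 := by
    have : (M : ℤ) ^ 2 = (X ^ 2 + D * Y ^ 2) * (X'' ^ 2 + D * Y'' ^ 2) := by rw [e, e'', sq]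
    rw [this]; ring
  have s3 : X * X' + D * (Y * Y') = X * X'' + D * (Y * Y'') := by
    have : (X * X' + D * (Y * Y')) ^ 2 = (X * X'' + D * (Y * Y'')) ^ 2 := by rw [s1, s2, h]
    exact (pow_left_inj₀ hV' hV'' two_ne_zero).1 this
  have t1 : (M : ℤ) * X' = X * (X * X' + D * (Y * Y')) - D * Y * (X * Y' - X' * Y) := by
    rw [← e]; ring
  have t2 : (M : ℤ) * X'' = X * (X * X'' + D * (Y * Y'')) - D * Y * (X * Y'' - X'' * Y) := by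
    rw [← e]; ring
  have t3 : (M : ℤ) * Y' = Y * (X * X' + D * (Y * Y')) + X * (X * Y' - X' * Y) := by
    rw [← e]; ring
  have t4 : (M : ℤ) * Y'' = Y * (X * X'' + D * (Y * Y'')) + X * (X * Y'' - X'' * Y) := by
    rw [← e]; ring
  constructor
  · have : (M : ℤ) * X' = M * X'' := by rw [t1, t2, s3, h]
    exact mul_left_cancel₀ hM'.ne' this
  · have : (M : ℤ) * Y' = M * Y'' := by rw [t3, t4, s3, h]
    exact mul_left_cancel₀ hM'.ne' this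

end SF
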