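import Pool.Agent.Helper353.SF.Defs

set_option autoImplicit false

namespace SF



theorem h_two (D h : ℕ) (hD : Squarefree D) (hh : h ^ 2 ∣ 4 * D) : h ∣ 2 := by
  rcases Nat.even_or_odd' h with ⟨k, rfl | rfl⟩
  · have h1 : k * k ∣ D := by
      have h2 : 4 * (k * k) ∣ 4 * D := by
        have : (2 * k) ^ 2 = 4 * (k * k) := by ring
        rwa [this] at hh
      exact Nat.dvd_of_mul_dvd_mul_left (by norm_num) h2
    have h3 : k = 1 := Nat.isUnit_iff.1 (hD k h1)
    rw [h3]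
  · have hc : Nat.Coprime ((2 * k + 1) ^ 2) 4 := by
      have h2 : Nat.Coprime (2 * k + 1) 2 := by
        exact Nat.coprime_two_right.2 ⟨k, rfl⟩
      have : (4:ℕ) = 2 ^ 2 := by norm_num
      rw [this]
      exact h2.pow 2 2
    have h1 : (2 * k + 1) ^ 2 ∣ D := hc.dvd_of_dvd_mul_left hh
    have h3 : 2 * k + 1 = 1 := Nat.isUnit_iff.1 (hD (2 * k + 1) (by rw [← sq]; exact h1))
    rw [h3]
    exact one_dvd _

end SF
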