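import Pool.Agent.Helper353.SF.Defs
import Pool.Agent.Helper353.SF.P_h_two

set_option autoImplicit false

namespace SF



theorem gcd_two (D M h : ℕ) (X Y X₀ Y₀ : ℤ) (hD : Squarefree D) (hM : h * h ∣ M)
    (e : X ^ 2 + D * Y ^ 2 = M) (c : IsCoprime Y (M : ℤ)) (c₀ : IsCoprime Y₀ (M : ℤ))
    (h1 : (h : ℤ) ∣ X * Y₀ - X₀ * Y) (h2 : (h : ℤ) ∣ X * Y₀ + X₀ * Y) : h ∣ 2 := by
  have hMZ : ((h : ℤ) * h) ∣ (M : ℤ) := by exact_mod_cast hM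
  have hhM : (h : ℤ) ∣ (M : ℤ) := dvd_trans (Dvd.intro _ rfl) hMZ
  have c1 : IsCoprime Y (h : ℤ) := IsCoprime.of_isCoprime_of_dvd_right c hhM
  have c2 : IsCoprime Y₀ (h : ℤ) := IsCoprime.of_isCoprime_of_dvd_right c₀ hhM
  have h3 : (h : ℤ) ∣ (2 * X) * Y₀ := by
    have := dvd_add h1 h2
    have e1 : X * Y₀ - X₀ * Y + (X * Y₀ + X₀ * Y) = (2 * X) * Y₀ := by ring
    rwa [e1] at this
  have h4 : (h : ℤ) ∣ 2 * X := c2.symm.dvd_of_dvd_mul_right h3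
  have h5 : (h : ℤ) ^ 2 ∣ 4 * X ^ 2 := by
    have := pow_dvd_pow_of_dvd h4 2
    have e1 : (2 * X) ^ 2 = 4 * X ^ 2 := by ring
    rwa [e1] at this
  have h6 : (h : ℤ) ^ 2 ∣ (4 * D) * Y ^ 2 := by
    have h7 : (h : ℤ) ^ 2 ∣ 4 * (M : ℤ) := by
      rw [sq]; exact hMZ.mul_left 4
    have h8 := dvd_sub h7 h5
    have e1 : 4 * (M : ℤ) - 4 * X ^ 2 = (4 * D) * Y ^ 2 := by rw [← e]; ring
    rwa [e1] at h8
  have c3 : IsCoprime ((h : ℤ) ^ 2) (Y ^ 2) := (c1.symm).pow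
  have h7 : (h : ℤ) ^ 2 ∣ 4 * D := c3.dvd_of_dvd_mul_right h6
  refine h_two D h hD ?_
  exact_mod_cast h7

end SF
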