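import Pool.Agent.Helper353.SF.Defs
import Pool.Agent.Helper353.SF.P_gcd_two
import Pool.Agent.Helper353.SF.P_div_S
import Pool.Agent.Helper353.SF.P_div_cross

set_option autoImplicit false

namespace SF



theorem pair_W (D M g : ℕ) (X Y X' Y' X₀ Y₀ : ℤ) (hD : Squarefree D) (hM : 0 < M)
    (e : X ^ 2 + D * Y ^ 2 = M) (e' : X' ^ 2 + D * Y' ^ 2 = M) (e₀ : X₀ ^ 2 + D * Y₀ ^ 2 = M)
    (c : IsCoprime Y (M : ℤ)) (c₀ : IsCoprime Y₀ (M : ℤ))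
    (hg : Int.gcd (X * Y₀ - X₀ * Y) M = g) (hg' : Int.gcd (X' * Y₀ - X₀ * Y') M = g) :
    (M : ℤ) ∣ 2 * (X * Y' - X' * Y) := by
  have hgM : g ∣ M := by
    have h := Int.gcd_dvd_right (X * Y₀ - X₀ * Y) (M : ℤ)
    rw [hg] at h
    exact_mod_cast h
  have hg1 : (g : ℤ) ∣ X * Y₀ - X₀ * Y := by
    rw [← hg]; exact Int.gcd_dvd_left _ _
  have hg2 : (g : ℤ) ∣ X' * Y₀ - X₀ * Y' := by
    rw [← hg']; exact Int.gcd_dvd_left _ _
  obtain ⟨m, hm⟩ := hgM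
  have hg0 : 0 < g := Nat.pos_of_ne_zero (by rintro rfl; simp at hm; omega)
  have hMg : M / g = m := by rw [hm]; exact Nat.mul_div_cancel_left m hg0
  have hm1 : (m : ℤ) ∣ X * Y₀ + X₀ * Y := by
    have h := div_S D M X Y X₀ Y₀ hM e e₀
    rwa [hg, hMg] at h
  have hm2 : (m : ℤ) ∣ X' * Y₀ + X₀ * Y' := by
    have h := div_S D M X' Y' X₀ Y₀ hM e' e₀
    rwa [hg', hMg] at h
  have cg : IsCoprime Y₀ (g : ℤ) :=
    c₀.of_isCoprime_of_dvd_right (by exact_mod_cast (⟨m, hm⟩ : g ∣ M))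
  have cm : IsCoprime Y₀ (m : ℤ) :=
    c₀.of_isCoprime_of_dvd_right (by exact_mod_cast (⟨g, by rw [hm]; ring⟩ : m ∣ M))
  have hW1 : (g : ℤ) ∣ X * Y' - X' * Y := div_cross g X Y X' Y' X₀ Y₀ cg hg1 hg2
  have hW2 : (m : ℤ) ∣ X * Y' - X' * Y := by
    refine div_cross m X Y X' Y' (-X₀) Y₀ cm ?_ ?_
    · have : X * Y₀ - -X₀ * Y = X * Y₀ + X₀ * Y := by ring
      rw [this]; exact hm1
    · have : X' * Y₀ - -X₀ * Y' = X' * Y₀ + X₀ * Y' := by ring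
      rw [this]; exact hm2
  have hh : Nat.gcd g m ∣ 2 := by
    refine gcd_two D M (Nat.gcd g m) X Y X₀ Y₀ hD ?_ e c c₀ ?_ ?_
    · rw [hm]; exact mul_dvd_mul (Nat.gcd_dvd_left _ _) (Nat.gcd_dvd_right _ _)
    · exact dvd_trans (by exact_mod_cast Nat.gcd_dvd_left g m) hg1
    · exact dvd_trans (by exact_mod_cast Nat.gcd_dvd_right g m) hm1
  have hl : ((Nat.lcm g m : ℕ) : ℤ) ∣ X * Y' - X' * Y := by
    rw [Int.natCast_dvd] at hW1 hW2 ⊢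
    exact Nat.lcm_dvd hW1 hW2
  have hM2 : (M : ℤ) = ((Nat.gcd g m : ℕ) : ℤ) * ((Nat.lcm g m : ℕ) : ℤ) := by
    rw [hm]
    exact_mod_cast (Nat.gcd_mul_lcm g m).symm
  rw [hM2]
  exact mul_dvd_mul (by exact_mod_cast hh) hl

end SF
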