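import Pool.Agent.Helper353.SF.Defs
import Pool.Agent.Helper353.SF.P_cop_M
import Pool.Agent.Helper353.SF.P_pair_W
import Pool.Agent.Helper353.SF.P_k_bound
import Pool.Agent.Helper353.SF.P_k_inj

set_option autoImplicit false

namespace SF



theorem prim_card (D M : ℕ) (hD : Squarefree D) (hM : 0 < M) :
    (Prim D M).card ≤ 5 * M.divisors.card := by
  classical
  have hD0 : 0 < D := Nat.pos_of_ne_zero hD.ne_zero
  rcases (Prim D M).eq_empty_or_nonempty with h0 | ⟨p₀, hp₀⟩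
  · rw [h0]; simp
  have key : ∀ p ∈ Prim D M, ((p.1:ℤ)^2 + D * (p.2:ℤ)^2 = M) ∧ IsCoprime (p.2:ℤ) (M:ℤ) := by
    intro p hp
    simp only [Prim, Sol, Finset.mem_filter] at hp
    obtain ⟨⟨_, _, _, h⟩, hc⟩ := hp
    refine ⟨by exact_mod_cast h, ?_⟩
    exact Nat.isCoprime_iff_coprime.mpr (cop_M D M p.1 p.2 h hc)
  obtain ⟨f, hfdef⟩ : ∃ f : ℕ × ℕ → ℕ, ∀ p, f p = Int.gcd ((p.1:ℤ) * p₀.2 - p₀.1 * p.2) M :=
    ⟨_, fun p => rfl⟩
  have hf : ∀ p ∈ Prim D M, f p ∈ M.divisors := by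
    intro p _
    rw [Nat.mem_divisors]
    refine ⟨?_, hM.ne'⟩
    rw [hfdef]
    have h := Int.gcd_dvd_right ((p.1:ℤ) * p₀.2 - p₀.1 * p.2) (M : ℤ)
    exact_mod_cast h
  refine Finset.card_le_mul_card_image_of_maps_to hf 5 ?_
  intro g _
  rcases (Finset.filter (fun p => f p = g) (Prim D M)).eq_empty_or_nonempty with h1 | ⟨p, hp⟩
  · rw [h1]; simp
  rw [Finset.mem_filter] at hp
  obtain ⟨hpP, hpg⟩ := hp
  have hMZ : (0:ℤ) < M := by exact_mod_cast hM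
  have dv : ∀ q ∈ Finset.filter (fun p => f p = g) (Prim D M),
      ∃ k : ℤ, 2 * ((p.1:ℤ) * q.2 - q.1 * p.2) = k * M ∧ -2 ≤ k ∧ k ≤ 2 := by
    intro q hq
    rw [Finset.mem_filter] at hq
    obtain ⟨hqP, hqg⟩ := hq
    rw [hfdef] at hpg hqg
    obtain ⟨k, hk⟩ := pair_W D M g p.1 p.2 q.1 q.2 p₀.1 p₀.2 hD hM (key p hpP).1 (key q hqP).1
      (key p₀ hp₀).1 (key p hpP).2 (key p₀ hp₀).2 hpg hqg
    have hk' : 2 * ((p.1:ℤ) * q.2 - q.1 * p.2) = k * M := by rw [hk]; ring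
    exact ⟨k, hk', k_bound D M p.1 p.2 q.1 q.2 k hD0 hM (key p hpP).1 (key q hqP).1 hk'⟩
  have hc : (Finset.filter (fun p => f p = g) (Prim D M)).card ≤ (Finset.Icc (-2:ℤ) 2).card := by
    refine Finset.card_le_card_of_injOn
      (fun q => (2 * ((p.1:ℤ) * q.2 - q.1 * p.2)) / M) ?_ ?_
    · intro q hq
      obtain ⟨k, hk, h1, h2⟩ := dv q hq
      simp only [hk, Int.mul_ediv_cancel k hMZ.ne']
      simp only [Finset.coe_Icc, Set.mem_Icc]
      exact ⟨h1, h2⟩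
    · intro q hq r hr hqr
      obtain ⟨k, hk, _, _⟩ := dv q hq
      obtain ⟨l, hl, _, _⟩ := dv r hr
      simp only [hk, hl, Int.mul_ediv_cancel _ hMZ.ne'] at hqr
      have hq' := Finset.mem_coe.1 hq
      have hr' := Finset.mem_coe.1 hr
      rw [Finset.mem_filter] at hq' hr'
      have e : (p.1:ℤ) * q.2 - q.1 * p.2 = p.1 * r.2 - r.1 * p.2 := by
        have : 2 * ((p.1:ℤ) * q.2 - q.1 * p.2) = 2 * (p.1 * r.2 - r.1 * p.2) := by
          rw [hk, hl, hqr]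
        linarith
      obtain ⟨a, b⟩ := k_inj D M p.1 p.2 q.1 q.2 r.1 r.2 hM (by positivity) (by positivity)
        (by positivity) (by positivity) (by positivity) (by positivity)
        (key p hpP).1 (key q hq'.1).1 (key r hr'.1).1 e
      exact Prod.ext (by exact_mod_cast a) (by exact_mod_cast b)
  exact hc.trans (by decide)

end SF
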