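import Pool.Agent.Helper353.SF.Defs
import Pool.Agent.Helper353.SF.P_prim_card

set_option autoImplicit false

namespace SF



theorem sol_card (D M : ℕ) (hD : Squarefree D) (hM : 0 < M) :
    (Sol D M).card ≤ 5 * M.divisors.card ^ 2 := by
  classical
  have hsub : Sol D M ⊆ (M.divisors.filter (fun e => e ^ 2 ∣ M)).biUnion
      (fun e => (Prim D (M / e ^ 2)).image (fun p => (e * p.1, e * p.2))) := by
    rintro ⟨X, Y⟩ h
    simp only [Sol, Finset.mem_filter, Finset.mem_product, Finset.mem_range] at h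
    obtain ⟨-, hX, hY, hXY⟩ := h
    obtain ⟨e, he⟩ : ∃ e, e = Nat.gcd X Y := ⟨_, rfl⟩
    have hepos : 0 < e := he ▸ Nat.gcd_pos_of_pos_left Y hX
    obtain ⟨x, hx⟩ : e ∣ X := he ▸ Nat.gcd_dvd_left X Y
    obtain ⟨y, hy⟩ : e ∣ Y := he ▸ Nat.gcd_dvd_right X Y
    have hcop : Nat.Coprime x y := by
      have h1 : e * Nat.gcd x y = e * 1 := by
        rw [← Nat.gcd_mul_left, ← hx, ← hy, ← he, mul_one]
      exact Nat.eq_of_mul_eq_mul_left hepos h1
    have hM2 : M = e ^ 2 * (x ^ 2 + D * y ^ 2) := by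
      rw [← hXY, hx, hy]; ring
    have he2 : e ^ 2 ∣ M := ⟨_, hM2⟩
    have hq : M / e ^ 2 = x ^ 2 + D * y ^ 2 := by
      rw [hM2]
      exact Nat.mul_div_cancel_left _ (by positivity)
    have hxpos : 0 < x := by
      rcases Nat.eq_zero_or_pos x with h0 | h0
      · rw [h0] at hx; omega
      · exact h0
    have hypos : 0 < y := by
      rcases Nat.eq_zero_or_pos y with h0 | h0
      · rw [h0] at hy; omega
      · exact h0
    have hDpos : 0 < D := Nat.pos_of_ne_zero hD.ne_zero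
    simp only [Finset.mem_biUnion, Finset.mem_filter, Finset.mem_image, Nat.mem_divisors,
      Prod.mk.injEq]
    refine ⟨e, ⟨⟨(Dvd.intro_left _ (by rw [pow_two]) : e ∣ e ^ 2).trans he2, hM.ne'⟩, he2⟩,
      (x, y), ?_, hx.symm, hy.symm⟩
    simp only [Prim, Sol, Finset.mem_filter, Finset.mem_product, Finset.mem_range]
    rw [hq]
    refine ⟨⟨⟨?_, ?_⟩, hxpos, hypos, rfl⟩, hcop⟩
    · nlinarith [Nat.zero_le (D * y ^ 2)]
    · nlinarith [Nat.zero_le (x ^ 2), Nat.mul_le_mul_right (y ^ 2) hDpos]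
  refine (Finset.card_le_card hsub).trans (Finset.card_biUnion_le.trans ?_)
  have hb : ∀ e ∈ M.divisors.filter (fun e => e ^ 2 ∣ M),
      ((Prim D (M / e ^ 2)).image (fun p => (e * p.1, e * p.2))).card ≤ 5 * M.divisors.card := by
    intro e he
    simp only [Finset.mem_filter, Nat.mem_divisors] at he
    obtain ⟨⟨he1, -⟩, he2⟩ := he
    have hepos : 0 < e := Nat.pos_of_dvd_of_pos he1 hM
    have hqpos : 0 < M / e ^ 2 := Nat.div_pos (Nat.le_of_dvd hM he2) (by positivity)
    refine Finset.card_image_le.trans ((prim_card D _ hD hqpos).trans ?_)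
    exact Nat.mul_le_mul_left _ (Finset.card_le_card
      (Nat.divisors_subset_of_dvd hM.ne' (Nat.div_dvd_of_dvd he2)))
  refine (Finset.sum_le_card_nsmul _ _ _ hb).trans ?_
  rw [smul_eq_mul]
  calc (M.divisors.filter (fun e => e ^ 2 ∣ M)).card * (5 * M.divisors.card)
      ≤ M.divisors.card * (5 * M.divisors.card) :=
        Nat.mul_le_mul_right _ (Finset.card_filter_le _ _)
    _ = 5 * M.divisors.card ^ 2 := by ring

end SF
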