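import Pool.Agent.Helper353.SF.Defs
import Pool.Agent.Helper353.SF.P_sol_card

set_option autoImplicit false

namespace SF



theorem form_card (b d n : ℕ) (hb : Squarefree b) (hd : Squarefree d) (hn : 0 < n) :
    (((Finset.range (n + 1)) ×ˢ (Finset.range (n + 1))).filter
      (fun p : ℕ × ℕ => 0 < p.1 ∧ 0 < p.2 ∧ b ^ 3 * p.1 ^ 2 + d ^ 3 * p.2 ^ 2 = n)).card
      ≤ 5 * (b * n).divisors.card ^ 2 := by
  have hb0 : 0 < b := Nat.pos_of_ne_zero hb.ne_zero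
  have hd0 : 0 < d := Nat.pos_of_ne_zero hd.ne_zero
  obtain ⟨g, b', d', hg0, hcop, hbe, hde⟩ : ∃ g b' d' : ℕ, 0 < g ∧ Nat.Coprime b' d' ∧
      b = b' * g ∧ d = d' * g := by
    obtain ⟨g, b', d', h1, h2, h3, h4⟩ := Nat.exists_coprime' (Nat.gcd_pos_of_pos_left d hb0)
    exact ⟨g, b', d', h1, h2, h3, h4⟩
  have hb' : Squarefree b' := hb.squarefree_of_dvd ⟨g, hbe⟩
  have hd' : Squarefree d' := hd.squarefree_of_dvd ⟨g, hde⟩
  have hb'0 : 0 < b' := Nat.pos_of_ne_zero hb'.ne_zero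
  have hd'0 : 0 < d' := Nat.pos_of_ne_zero hd'.ne_zero
  have hD : Squarefree (b' * d') := (Nat.squarefree_mul hcop).2 ⟨hb', hd'⟩
  refine le_trans ?_ (sol_card (b' * d') (b * n) hD (Nat.mul_pos hb0 hn))
  apply Finset.card_le_card_of_injOn (fun p : ℕ × ℕ => (b ^ 2 * p.1, g * d * p.2))
  · intro p hp
    have hp' := (Finset.mem_filter.1 hp).2
    obtain ⟨hp1, hp2, hpe⟩ := hp'
    have e : (b ^ 2 * p.1) ^ 2 + b' * d' * (g * d * p.2) ^ 2 = b * n := by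
      rw [← hpe]
      have : b * (b ^ 3 * p.1 ^ 2 + d ^ 3 * p.2 ^ 2) =
          b ^ 4 * p.1 ^ 2 + b * d * (d ^ 2 * p.2 ^ 2) := by ring
      rw [this]
      have h2 : b * d = b' * d' * g ^ 2 := by rw [hbe, hde]; ring
      rw [h2]
      ring
    have hpos1 : 0 < b ^ 2 * p.1 := Nat.mul_pos (pow_pos hb0 2) hp1
    have hpos2 : 0 < g * d * p.2 := Nat.mul_pos (Nat.mul_pos hg0 hd0) hp2
    have hposD : 0 < b' * d' := Nat.mul_pos hb'0 hd'0
    refine Finset.mem_coe.2 (Finset.mem_filter.2 ⟨Finset.mem_product.2 ⟨?_, ?_⟩, hpos1, hpos2, e⟩)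
    · show b ^ 2 * p.1 ∈ Finset.range (b * n + 1)
      rw [Finset.mem_range, Nat.lt_succ_iff]
      calc b ^ 2 * p.1 ≤ (b ^ 2 * p.1) ^ 2 := Nat.le_self_pow (by norm_num) _
        _ ≤ b * n := by rw [← e]; exact Nat.le_add_right _ _
    · show g * d * p.2 ∈ Finset.range (b * n + 1)
      rw [Finset.mem_range, Nat.lt_succ_iff]
      calc g * d * p.2 ≤ (g * d * p.2) ^ 2 := Nat.le_self_pow (by norm_num) _
        _ ≤ b' * d' * (g * d * p.2) ^ 2 := Nat.le_mul_of_pos_left _ hposD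
        _ ≤ b * n := by rw [← e]; exact Nat.le_add_left _ _
  · intro p _ q _ hpq
    have h1 : b ^ 2 * p.1 = b ^ 2 * q.1 := congrArg Prod.fst hpq
    have h2 : g * d * p.2 = g * d * q.2 := congrArg Prod.snd hpq
    exact Prod.ext (Nat.eq_of_mul_eq_mul_left (pow_pos hb0 2) h1)
      (Nat.eq_of_mul_eq_mul_left (Nat.mul_pos hg0 hd0) h2)

end SF
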