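import Pool.Agent.Helper353.SF.Defs
import Pool.Agent.Helper353.SF.P_form_card

set_option autoImplicit false

namespace SF



theorem small_card_le (b x : ℕ) (hb : 0 < b) : x ≤ b ^ 3 * x ^ 2 := by
  have h1 : x ≤ x ^ 2 := by nlinarith [Nat.zero_le x, sq_nonneg (x : ℤ)]
  have h2 : 1 ≤ b ^ 3 := Nat.pos_of_ne_zero (pow_ne_zero 3 hb.ne')
  calc x ≤ x ^ 2 := h1
    _ = 1 * x ^ 2 := (one_mul _).symm
    _ ≤ b ^ 3 * x ^ 2 := Nat.mul_le_mul_right _ h2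

theorem small_card (K n T : ℕ) (hn : 0 < n)
    (hT : ∀ b : ℕ, 0 < b → b ≤ K → 5 * (b * n).divisors.card ^ 2 ≤ T) :
    Set.ncard {a : ℕ | a ≤ n ∧ 0 < a ∧ 0 < n - a ∧ Small K a ∧ Small K (n - a)} ≤ K ^ 2 * T := by
  classical
  let F : ℕ × ℕ → Finset (ℕ × ℕ) := fun bd =>
    ((Finset.range (n + 1)) ×ˢ (Finset.range (n + 1))).filter
      (fun p : ℕ × ℕ => 0 < p.1 ∧ 0 < p.2 ∧ bd.1 ^ 3 * p.1 ^ 2 + bd.2 ^ 3 * p.2 ^ 2 = n)
  let I : Finset (ℕ × ℕ) := ((Finset.Icc 1 K) ×ˢ (Finset.Icc 1 K)).filter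
    (fun bd => Squarefree bd.1 ∧ Squarefree bd.2)
  have hsub : {a : ℕ | a ≤ n ∧ 0 < a ∧ 0 < n - a ∧ Small K a ∧ Small K (n - a)} ⊆
      ((I.biUnion (fun bd => (F bd).image (fun p => bd.1 ^ 3 * p.1 ^ 2)) : Finset ℕ) : Set ℕ) := by
    rintro a ⟨han, ha0, hna, ⟨b, x, hb, hbK, hx, hax⟩, ⟨d, y, hd, hdK, hy, hay⟩⟩
    have hb0 : 0 < b := Nat.pos_of_ne_zero hb.ne_zero
    have hd0 : 0 < d := Nat.pos_of_ne_zero hd.ne_zero
    have hx1 := small_card_le b x hb0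
    have hy1 := small_card_le d y hd0
    rw [Finset.mem_coe, Finset.mem_biUnion]
    refine ⟨(b, d), ?_, ?_⟩
    · rw [Finset.mem_filter, Finset.mem_product, Finset.mem_Icc, Finset.mem_Icc]
      exact ⟨⟨⟨hb0, hbK⟩, ⟨hd0, hdK⟩⟩, hb, hd⟩
    · rw [Finset.mem_image]
      refine ⟨(x, y), ?_, hax.symm⟩
      rw [Finset.mem_filter, Finset.mem_product, Finset.mem_range, Finset.mem_range]
      refine ⟨⟨?_, ?_⟩, hx, hy, ?_⟩
      · show x < n + 1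
        omega
      · show y < n + 1
        omega
      · show b ^ 3 * x ^ 2 + d ^ 3 * y ^ 2 = n
        omega
  calc Set.ncard {a : ℕ | a ≤ n ∧ 0 < a ∧ 0 < n - a ∧ Small K a ∧ Small K (n - a)}
      ≤ Set.ncard ((I.biUnion (fun bd => (F bd).image (fun p => bd.1 ^ 3 * p.1 ^ 2)) :
          Finset ℕ) : Set ℕ) := Set.ncard_le_ncard hsub (Finset.finite_toSet _)
    _ = (I.biUnion (fun bd => (F bd).image (fun p => bd.1 ^ 3 * p.1 ^ 2))).card :=
        Set.ncard_coe_finset _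
    _ ≤ I.card * T := by
        refine Finset.card_biUnion_le_card_mul _ _ _ fun bd hbd => ?_
        rw [Finset.mem_filter, Finset.mem_product, Finset.mem_Icc, Finset.mem_Icc] at hbd
        obtain ⟨⟨⟨h1, h2⟩, ⟨h3, h4⟩⟩, h5, h6⟩ := hbd
        exact (Finset.card_image_le).trans ((form_card bd.1 bd.2 n h5 h6 hn).trans (hT bd.1 h1 h2))
    _ ≤ K ^ 2 * T := by
        refine Nat.mul_le_mul_right _ ?_
        refine (Finset.card_filter_le _ _).trans ?_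
        rw [Finset.card_product, Nat.card_Icc, Nat.add_sub_cancel, sq]

end SF
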