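import Pool.Agent.Helper353.SF.Defs
import Pool.Agent.Helper353.SF.P_pw_rep
import Pool.Agent.Helper353.SF.P_big_card
import Pool.Agent.Helper353.SF.P_small_card

set_option autoImplicit false

namespace SF



theorem split (K n : ℕ) (hK : 0 < K) (T : ℕ) (hn : 0 < n)
    (hT : ∀ b : ℕ, 0 < b → b ≤ K → 5 * (b * n).divisors.card ^ 2 ≤ T) :
    ((Set.ncard {a : ℕ | a ≤ n ∧ 0 < a ∧ Pw a ∧ 0 < n - a ∧ Pw (n - a)} : ℕ) : ℝ)
      ≤ (K : ℝ) ^ 2 * T + 4 * Real.sqrt n / Real.sqrt K := by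
  classical
  set S : Set ℕ := {a : ℕ | a ≤ n ∧ 0 < a ∧ Pw a ∧ 0 < n - a ∧ Pw (n - a)} with hS
  set A : Set ℕ := {a : ℕ | a ≤ n ∧ 0 < a ∧ 0 < n - a ∧ Small K a ∧ Small K (n - a)} with hA
  set B : Set ℕ := {a : ℕ | a ≤ n ∧ 0 < a ∧ Big K a} with hB
  set C : Set ℕ := {a : ℕ | a ≤ n ∧ (n - a) ∈ B} with hC
  have hfin : ∀ X : Set ℕ, (∀ a ∈ X, a ≤ n) → X.Finite := fun X hX =>
    (Set.finite_Iic n).subset hX
  have hAf : A.Finite := hfin A fun a ha => ha.1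
  have hBf : B.Finite := hfin B fun a ha => ha.1
  have hCf : C.Finite := hfin C fun a ha => ha.1
  have hsub : S ⊆ (A ∪ B) ∪ C := by
    rintro a ⟨h1, h2, h3, h4, h5⟩
    obtain ⟨b, x, hb, hx, hab⟩ := pw_rep a h2 h3
    obtain ⟨b', x', hb', hx', hab'⟩ := pw_rep (n - a) h4 h5
    by_cases hbK : K < b
    · left; right
      exact ⟨h1, h2, b, x, hb, hbK, hx, hab⟩
    · by_cases hbK' : K < b'
      · right
        exact ⟨h1, Nat.sub_le _ _, h4, b', x', hb', hbK', hx', hab'⟩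
      · left; left
        exact ⟨h1, h2, h4, ⟨b, x, hb, not_lt.mp hbK, hx, hab⟩, ⟨b', x', hb', not_lt.mp hbK', hx', hab'⟩⟩
  have hCB : C.ncard ≤ B.ncard := by
    apply Set.ncard_le_ncard_of_injOn (fun a => n - a) (fun a ha => ha.2) _ hBf
    intro a ha b hb hab
    have h1 : a ≤ n := ha.1
    have h2 : b ≤ n := hb.1
    simp only at hab
    omega
  have h1 : S.ncard ≤ A.ncard + B.ncard + C.ncard := by
    calc S.ncard ≤ ((A ∪ B) ∪ C).ncard := Set.ncard_le_ncard hsub ((hAf.union hBf).union hCf)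
      _ ≤ (A ∪ B).ncard + C.ncard := Set.ncard_union_le _ _
      _ ≤ A.ncard + B.ncard + C.ncard := by
        have := Set.ncard_union_le A B
        omega
  have h2 : A.ncard ≤ K ^ 2 * T := small_card K n T hn hT
  have h3 : (B.ncard : ℝ) ≤ 2 * Real.sqrt n / Real.sqrt K := big_card K n hK
  have h4 : (S.ncard : ℝ) ≤ (A.ncard : ℝ) + B.ncard + C.ncard := by exact_mod_cast h1
  have h5 : (A.ncard : ℝ) ≤ (K : ℝ) ^ 2 * T := by exact_mod_cast h2
  have h6 : (C.ncard : ℝ) ≤ B.ncard := by exact_mod_cast hCB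
  have h7 : 4 * Real.sqrt n / Real.sqrt K = 2 * Real.sqrt n / Real.sqrt K + 2 * Real.sqrt n / Real.sqrt K := by
    ring
  rw [h7]
  linarith

end SF
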