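import Pool.Agent.Helper353.SF.Defs
import Pool.Agent.Helper353.SF.P_split

set_option autoImplicit false

namespace SF



theorem final (hdiv : ∀ ε : ℝ, 0 < ε → ∃ C : ℝ, 0 < C ∧ ∀ n : ℕ, 1 ≤ n →
      (n.divisors.card : ℝ) ≤ C * (n : ℝ) ^ ε) :
    ∀ ε : ℝ, 0 < ε → ∃ C : ℝ, 0 < C ∧ ∀ n : ℕ, 0 < n →
      ((Set.ncard {a : ℕ | a ≤ n ∧ 0 < a ∧ Pw a ∧ 0 < n - a ∧ Pw (n - a)} : ℕ) : ℝ)
        ≤ C * (n : ℝ) ^ ((2 : ℝ) / 5 + ε) := by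
  intro ε hε
  obtain ⟨C, hC, hdivC⟩ := hdiv (ε / 4) (by linarith)
  refine ⟨5 * C ^ 2 + 6, by positivity, ?_⟩
  intro n hn
  have hn1 : (1 : ℝ) ≤ n := by exact_mod_cast hn
  have hn0 : (0 : ℝ) < n := by linarith
  set x : ℝ := (n : ℝ) ^ ((1 : ℝ) / 5) with hx
  have hx1 : 1 ≤ x := Real.one_le_rpow hn1 (by norm_num)
  have hx5 : x ^ 5 = n := by
    rw [hx, ← Real.rpow_natCast, ← Real.rpow_mul hn0.le]
    norm_num
  have hx2 : x ^ 2 = (n : ℝ) ^ ((2 : ℝ) / 5) := by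
    rw [hx, ← Real.rpow_natCast, ← Real.rpow_mul hn0.le]
    norm_num
  set K : ℕ := ⌊x⌋₊ with hK
  have hK1 : 1 ≤ K := Nat.le_floor (by rw [Nat.cast_one]; exact hx1)
  have hKx : (K : ℝ) ≤ x := Nat.floor_le (by linarith)
  have hK1' : (1 : ℝ) ≤ K := by exact_mod_cast hK1
  have hKx2 : x / 2 ≤ K := by
    have := Nat.lt_floor_add_one x
    linarith
  have hxn : x ≤ n := by
    rw [← hx5]
    calc x = x ^ 1 := (pow_one x).symm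
      _ ≤ x ^ 5 := pow_le_pow_right₀ hx1 (by norm_num)
  have hKn : K ≤ n := by
    have : (K : ℝ) ≤ n := hKx.trans hxn
    exact_mod_cast this
  have hpe : 0 < (n : ℝ) ^ ε := Real.rpow_pos_of_pos hn0 _
  set T : ℕ := ⌊5 * C ^ 2 * (n : ℝ) ^ ε⌋₊ with hT
  have hTle : (T : ℝ) ≤ 5 * C ^ 2 * (n : ℝ) ^ ε := Nat.floor_le (by positivity)
  have hmain := split K n hK1 T hn (by
    intro b hb hbK
    apply Nat.le_floor
    have hbn : 1 ≤ b * n := Nat.mul_pos hb hn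
    have h1 := hdivC (b * n) hbn
    have h2 : ((b * n : ℕ) : ℝ) ^ (ε / 4) ≤ (n : ℝ) ^ (ε / 2) := by
      have h3 : ((b * n : ℕ) : ℝ) ≤ (n : ℝ) ^ (2 : ℝ) := by
        rw [Real.rpow_two, sq]
        have : b * n ≤ n * n := Nat.mul_le_mul_right n (hbK.trans hKn)
        exact_mod_cast this
      calc ((b * n : ℕ) : ℝ) ^ (ε / 4) ≤ ((n : ℝ) ^ (2 : ℝ)) ^ (ε / 4) :=
            Real.rpow_le_rpow (Nat.cast_nonneg _) h3 (by linarith)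
        _ = (n : ℝ) ^ (ε / 2) := by
            rw [← Real.rpow_mul hn0.le]
            congr 1
            ring
    have h4 : ((b * n).divisors.card : ℝ) ≤ C * (n : ℝ) ^ (ε / 2) :=
      h1.trans (mul_le_mul_of_nonneg_left h2 hC.le)
    have h5 : ((b * n).divisors.card : ℝ) ^ 2 ≤ (C * (n : ℝ) ^ (ε / 2)) ^ 2 :=
      pow_le_pow_left₀ (Nat.cast_nonneg _) h4 2
    have h6 : (C * (n : ℝ) ^ (ε / 2)) ^ 2 = C ^ 2 * (n : ℝ) ^ ε := by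
      rw [mul_pow]
      congr 1
      rw [← Real.rpow_natCast, ← Real.rpow_mul hn0.le]
      congr 1
      push_cast
      ring
    push_cast
    rw [h6] at h5
    linarith)
  refine hmain.trans ?_
  have hadd : (n : ℝ) ^ ((2 : ℝ) / 5 + ε) = (n : ℝ) ^ ((2 : ℝ) / 5) * (n : ℝ) ^ ε :=
    Real.rpow_add hn0 _ _
  have hpe1 : 1 ≤ (n : ℝ) ^ ε := Real.one_le_rpow hn1 hε.le
  have hA : (K : ℝ) ^ 2 * T ≤ 5 * C ^ 2 * (n : ℝ) ^ ((2 : ℝ) / 5 + ε) := by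
    rw [hadd, ← hx2]
    calc (K : ℝ) ^ 2 * T ≤ x ^ 2 * (5 * C ^ 2 * (n : ℝ) ^ ε) :=
          mul_le_mul (pow_le_pow_left₀ (by linarith) hKx 2) hTle (Nat.cast_nonneg _) (by positivity)
      _ = 5 * C ^ 2 * (x ^ 2 * (n : ℝ) ^ ε) := by ring
  have hsK : 0 < Real.sqrt (K : ℝ) := Real.sqrt_pos.2 (by linarith)
  have hB : 4 * Real.sqrt n / Real.sqrt K ≤ 6 * (n : ℝ) ^ ((2 : ℝ) / 5 + ε) := by
    have h1 : 4 * Real.sqrt n / Real.sqrt K ≤ 6 * x ^ 2 := by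
      rw [div_le_iff₀ hsK]
      rw [← pow_le_pow_iff_left₀ (by positivity) (by positivity) two_ne_zero, mul_pow, mul_pow,
        Real.sq_sqrt hn0.le, Real.sq_sqrt (by linarith : (0 : ℝ) ≤ K)]
      have h2 : x ^ 4 * (x / 2) ≤ x ^ 4 * K := mul_le_mul_of_nonneg_left hKx2 (by positivity)
      have h3 : x ^ 4 * (x / 2) = x ^ 5 / 2 := by ring
      rw [h3, hx5] at h2
      nlinarith
    refine h1.trans ?_
    rw [hadd, ← hx2]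
    have : x ^ 2 * 1 ≤ x ^ 2 * (n : ℝ) ^ ε := mul_le_mul_of_nonneg_left hpe1 (by positivity)
    linarith
  calc (K : ℝ) ^ 2 * T + 4 * Real.sqrt n / Real.sqrt K
      ≤ 5 * C ^ 2 * (n : ℝ) ^ ((2 : ℝ) / 5 + ε) + 6 * (n : ℝ) ^ ((2 : ℝ) / 5 + ε) :=
        add_le_add hA hB
    _ = (5 * C ^ 2 + 6) * (n : ℝ) ^ ((2 : ℝ) / 5 + ε) := by ring

end SF
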